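import Pool.Agent.N201.BT.Box

/-!
# Unrestricted box averages of arbitrary maps at the integer parts of generic multiples of linear forms

All maps are invertible measure preserving maps of a probability space `(X, μ)`; no relation between them is assumed
(they need not commute nor generate a nilpotent group, and they need not be times of flows). `⌊.⌋` is the integer part.

1. Let `T_1, ..., T_n` be such maps, `L_1, ..., L_n` nonzero linear forms in `k` variables with real coefficients and
   `f_1, ..., f_n` in `L^∞`. For Lebesgue almost every `(a_1, ..., a_n)` the averages of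
   `∏ f_j (T_j ^ ⌊a_j L_j(m)⌋ x)` over the boxes `[1, M_1] × ... × [1, M_k]` converge almost everywhere as
   `min M_i → ∞`, with no restriction on the shape of the boxes, and the limit is the product of the conditional
   expectations of the `f_j` on the `T_j`-invariant sets.
2. Let `T` be one such map, `h` in `L^∞` and `L` a linear form in `k ≥ 1` variables all of whose coefficients are
   nonzero. For almost every `x`: for EVERY bounded array `B(m)` and almost every real `a`,
   `(1/|M|) ∑ B(m) (h(T ^ ⌊a L(m)⌋ x) - E(h|T)(x)) → 0` as `min M_i → ∞`.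
3. With `T`, `h`, `L` as in 2, for ALL measure preserving maps `S_j(m)` (for example those of the problem) and
   `f_j` in `L^∞`, for almost every real `a`, almost everywhere `A_M(f_1, ..., f_n, h) - E(h|T) A_M(f_1, ..., f_n) → 0`,
   where `A_M(f_1, ..., f_n, h)` are the averages of `∏ f_j(S_j(m) x) h(T ^ ⌊a L(m)⌋ x)` over the box; so the first
   averages converge almost everywhere if the second do.

The starting results `GenericLinearForms` and `GenericFactor` are about the times `a L(m)` of measurable flows. A map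
is in general not a time of a flow.

Proof. The suspension flow of `T` and the theorem for flows (`Pool.Agent.Y957.MC`, theorem `flwc_all`) give the
statement for `⌊s + a L(m)⌋` in place of `⌊a L(m)⌋`, for almost every `s` in `[0, 1)`. The shift is removed with
small `s`: `⌊s + y⌋ = ⌊y⌋` unless the fractional part of `y` is in `[1 - s, 1)`, and, `a c_i` being irrational for
almost every `a`, these `m` have density at most `2 s` in all boxes with large sides, uniformly in the other
variables (Weyl, for one irrational rotation and all its translates).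
-/

set_option autoImplicit false

namespace Pool.Agent.Results.MP_f720ae_an.IntegerPartsOfForms

open MeasureTheory Filter Finset

universe u

/-- `f` is in `L^∞` -/
def EssBdd {X : Type u} [MeasurableSpace X] (μ : Measure X) (f : X → ℂ) : Prop :=
  AEStronglyMeasurable f μ ∧ ∃ C : ℝ, ∀ᵐ x ∂μ, ‖f x‖ ≤ C

/-- the average of `w` over the box `[1, M_1] × ... × [1, M_k]` -/
noncomputable def avg {k : ℕ} (M : Fin k → ℕ) (w : (Fin k → ℕ) → ℂ) : ℂ :=
  (1 / ((∏ i, M i : ℕ) : ℂ)) * ∑ m ∈ Fintype.piFinset (fun i => Icc 1 (M i)), w m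

theorem result (X : Type u) [MeasurableSpace X] (μ : Measure X) [IsProbabilityMeasure μ] :
    (∀ (k n : ℕ) (T : Fin n → Equiv.Perm X) (c : Fin n → Fin k → ℝ) (f : Fin n → X → ℂ),
      (∀ j, MeasurePreserving (T j) μ μ) → (∀ j, Measurable (T j).symm) → (∀ j, c j ≠ 0) →
      (∀ j, EssBdd μ (f j)) →
      ∀ᵐ a : Fin n → ℝ, ∀ᵐ x ∂μ,
        Tendsto (fun M : Fin k → ℕ => avg M fun m => ∏ j, f j ((T j ^ ⌊a j * ∑ i, c j i * (m i : ℝ)⌋) x)) atTop
          (nhds (∏ j, (μ[f j | MeasurableSpace.invariants (T j)]) x))) ∧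
    (∀ (k : ℕ) (T : Equiv.Perm X) (c : Fin k → ℝ) (h : X → ℂ), 0 < k →
      MeasurePreserving T μ μ → Measurable T.symm → (∀ i, c i ≠ 0) → EssBdd μ h →
      (∀ᵐ x ∂μ, ∀ B : (Fin k → ℕ) → ℂ, (∃ C : ℝ, ∀ m, ‖B m‖ ≤ C) → ∀ᵐ a : ℝ,
        Tendsto (fun M => avg M fun m => B m * (h ((T ^ ⌊a * ∑ i, c i * (m i : ℝ)⌋) x) -
          (μ[h | MeasurableSpace.invariants T]) x)) atTop (nhds 0)) ∧
      (∀ (n : ℕ) (S : Fin n → (Fin k → ℕ) → X → X) (f : Fin n → X → ℂ), (∀ j m, MeasurePreserving (S j m) μ μ) →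
        (∀ j, EssBdd μ (f j)) →
        (∀ᵐ a : ℝ, ∀ᵐ x ∂μ,
          Tendsto (fun M => avg M (fun m => (∏ j, f j (S j m x)) * h ((T ^ ⌊a * ∑ i, c i * (m i : ℝ)⌋) x)) -
            (μ[h | MeasurableSpace.invariants T]) x * avg M (fun m => ∏ j, f j (S j m x))) atTop (nhds 0)) ∧
        ((∀ᵐ x ∂μ, ∃ l : ℂ, Tendsto (fun M => avg M fun m => ∏ j, f j (S j m x)) atTop (nhds l)) →
          ∀ᵐ a : ℝ, ∀ᵐ x ∂μ, ∃ l : ℂ,
            Tendsto (fun M => avg M fun m => (∏ j, f j (S j m x)) * h ((T ^ ⌊a * ∑ i, c i * (m i : ℝ)⌋) x)) atTop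
              (nhds l)))) := by
  refine ⟨?_, ?_⟩
  · intro k n T c f hT hTs hc hf
    have h1 := Pool.Agent.N201.BT.boxm_Linf (μ := μ) (T := T) (fun j => ⟨(hT j).measurable, hTs j, hT j⟩) hc
      (fun j => (hf j).1) (fun j => (hf j).2)
    filter_upwards [h1] with a ha
    filter_upwards [ha] with x hx
    exact hx
  intro k T c h hk hT hTs hc hh
  have hI : Pool.Agent.N201.BT.IsInv μ T := ⟨hT.measurable, hTs, hT⟩
  have hW : ∀ W : (Fin k → ℕ) → X → ℂ, (∀ m, AEStronglyMeasurable (W m) μ) →
      (∃ C : ℝ, ∀ m, ∀ᵐ x ∂μ, ‖W m x‖ ≤ C) →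
      ∀ᵐ a : ℝ, ∀ᵐ x ∂μ, Tendsto (fun M => avg M (fun m => W m x * h ((T ^ ⌊a * ∑ i, c i * (m i : ℝ)⌋) x)) -
        (μ[h | MeasurableSpace.invariants T]) x * avg M (fun m => W m x)) atTop (nhds 0) := by
    intro W hW hWb
    filter_upwards [Pool.Agent.N201.BT.boxm_weights hk hI hc hh.1 hh.2 hW hWb] with a ha
    filter_upwards [ha] with x hx
    refine hx.congr fun M => ?_
    unfold avg Pool.Agent.Y957.MC.bavg Pool.Agent.Y957.MC.box Pool.Agent.Y957.MC.lin
    simp only [mul_sub]
    rw [sum_sub_distrib, mul_sub, ← sum_mul]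
    show _ - (1 / _) * (_ * (μ[h | MeasurableSpace.invariants T]) x) = _
    ring
  refine ⟨?_, ?_⟩
  · obtain ⟨g, hgm, hgb, hfg⟩ := Pool.Agent.Y957.MC.exists_version hh.1 hh.2
    have h1 : (μ[h | MeasurableSpace.invariants T]) =ᵐ[μ] (μ[g | MeasurableSpace.invariants T]) :=
      condExp_congr_ae hfg
    have h3 : ∀ᵐ x ∂μ, ∀ i : ℤ, h ((T ^ i) x) = g ((T ^ i) x) := by
      rw [ae_all_iff]
      intro i
      exact (hI.zpow i).quasiMeasurePreserving.ae hfg
    filter_upwards [Pool.Agent.N201.BT.boxm_cx hk hI hc hgm hgb, h1, h3] with x hx hx1 hx3 B hB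
    obtain ⟨C, hC⟩ := hB
    have hC0 : 0 ≤ C := (norm_nonneg _).trans (hC fun _ => 0)
    obtain ⟨D, hD⟩ : ∃ D : ℝ, D = C + 1 := ⟨_, rfl⟩
    have hD0 : 0 < D := by rw [hD]; positivity
    have h2 := hx (fun n => (1 / (D : ℂ)) * B n) (fun n => by
      rw [norm_mul, norm_div, norm_one, Complex.norm_real, Real.norm_eq_abs, abs_of_pos hD0, one_div,
        inv_mul_le_iff₀ hD0, mul_one]
      have := hC n
      linarith)
    filter_upwards [h2] with a ha
    have h3 := ha.const_mul (D : ℂ)
    rw [mul_zero] at h3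
    have hDc : (D : ℂ) ≠ 0 := by exact_mod_cast hD0.ne'
    refine h3.congr fun M => ?_
    rw [← Pool.Agent.R497.Er.bavg_mul]
    unfold avg Pool.Agent.Y957.MC.bavg Pool.Agent.Y957.MC.box Pool.Agent.Y957.MC.lin
    congr 1
    refine sum_congr rfl fun m _ => ?_
    have e1 := hx3 ⌊a * ∑ i, c i * (m i : ℝ)⌋
    show (D : ℂ) * (1 / (D : ℂ) * B m * (g ((T ^ ⌊a * ∑ i, c i * (m i : ℝ)⌋) x) -
      (μ[g | MeasurableSpace.invariants T]) x)) = B m * (h ((T ^ ⌊a * ∑ i, c i * (m i : ℝ)⌋) x) -
      (μ[h | MeasurableSpace.invariants T]) x)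
    rw [hx1, e1]
    field_simp
  · intro n S f hS hf
    choose C hC using fun j => (hf j).2
    have h1 := hW (fun m x => ∏ j, f j (S j m x))
      (fun m => by
        have := Finset.aestronglyMeasurable_prod (Finset.univ : Finset (Fin n))
          (f := fun j x => f j (S j m x)) (μ := μ) (fun j _ => (hf j).1.comp_measurePreserving (hS j m))
        simpa only [Finset.prod_fn] using this)
      ⟨∏ j, |C j|, fun m => by
        have : ∀ᵐ x ∂μ, ∀ j, ‖f j (S j m x)‖ ≤ C j := by
          rw [ae_all_iff]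
          exact fun j => (hS j m).quasiMeasurePreserving.ae (hC j)
        filter_upwards [this] with x hx
        rw [norm_prod]
        exact Finset.prod_le_prod (fun j _ => norm_nonneg _) fun j _ => (hx j).trans (le_abs_self _)⟩
    refine ⟨h1, fun hL => ?_⟩
    filter_upwards [h1] with a ha
    filter_upwards [ha, hL] with x hx hLx
    obtain ⟨l, hLx⟩ := hLx
    refine ⟨(μ[h | MeasurableSpace.invariants T]) x * l, ?_⟩
    have h2 := hx.add (hLx.const_mul ((μ[h | MeasurableSpace.invariants T]) x))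
    rw [zero_add] at h2
    refine h2.congr fun M => ?_
    ring

end Pool.Agent.Results.MP_f720ae_an.IntegerPartsOfForms
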